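import Mathlib

/-!
STORM Z, second storey (q = 1/E): the chain over the scales. `T M` is the probability of a near tie of depth `M` at a bracket of
length `l`. The localised step at the scale `h` (cells of height `h`, `E h ≤ M ≤ 2 C E h`) is
`T M ≤ A * (M / (E h * ρ h)) * T (E h * ρ h) + err`, where `E h * ρ h` is the gain of one unit of luck spread over all cells of the
scale `h`; `ρ h ≥ L^(-ε) (l/h)^c1`. The product of the steps telescopes: after finitely many steps `T M ≤ A^k C L^e M / E l + err'`.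
(helper9)
-/

set_option autoImplicit false

namespace Pool.Agent.W_7d29a1_Z9

open Real

/-- The induction over the number of steps: `y` is the ratio `l / h` which is allowed. -/
theorem chain_ind {T : ℝ → ℝ} (hT1 : ∀ M, T M ≤ 1)
    {E ρ : ℕ → ℝ} {l r : ℕ} {C L c1 ε e A err : ℝ}
    (hE : ∀ n, 1 ≤ n → 0 < E n) (hmono : ∀ m n, 1 ≤ m → m ≤ n → E m ≤ E n) (hC : 1 ≤ C)
    (hgrow : ∀ m n : ℕ, 1 ≤ m → m ≤ n → E n ≤ C * ((n : ℝ) / m) * E m)
    (hr : 1 ≤ r) (hrl : r ≤ l) (hL : 1 ≤ L) (hc0 : 0 < c1) (hc1 : c1 ≤ 1) (he : 0 < e)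
    (hLe : 2 * C * L ^ ε ≤ L ^ (e * c1 ^ 2))
    (hρ : ∀ h : ℕ, r ≤ h → (h : ℝ) * L ^ e ≤ l → L ^ (-ε) * ((l : ℝ) / h) ^ c1 ≤ ρ h)
    (hA : 1 ≤ A) (herr : 0 ≤ err)
    (step : ∀ (h : ℕ) (M : ℝ), r ≤ h → (h : ℝ) * L ^ e ≤ l → E h ≤ M → M ≤ 2 * C * E h →
      (∀ n, n ≤ l → h < n → M < E n) → T M ≤ A * (M / (E h * ρ h)) * T (E h * ρ h) + err) (j : ℕ) :
    ∀ (h : ℕ) (M : ℝ), r ≤ h → (l : ℝ) ≤ h * L ^ (e * (1 + c1) ^ j) → E h ≤ M →
      T M ≤ A ^ j * (C * L ^ e) * (M / E l) + j * A ^ j * err := by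
  have hLpos : 0 < L := by linarith
  have hl1 : 1 ≤ l := hr.trans hrl
  have hEl : 0 < E l := hE l hl1
  have hlpos : (0 : ℝ) < l := by exact_mod_cast hl1
  induction j with
  | zero =>
    intro h M hrh hlh hM
    have hh1 : 1 ≤ h := hr.trans hrh
    have hhpos : (0 : ℝ) < h := by exact_mod_cast hh1
    have hEh : 0 < E h := hE h hh1
    have hM0 : 0 < M := hEh.trans_le hM
    rw [pow_zero, mul_one] at hlh
    simp only [pow_zero, one_mul, Nat.cast_zero, zero_mul, add_zero]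
    refine (hT1 M).trans ?_
    rw [mul_div_assoc', le_div_iff₀ hEl, one_mul]
    rcases le_total h l with hhl | hlh'
    · refine (hgrow h l hh1 hhl).trans ?_
      have h1 : (l : ℝ) / h ≤ L ^ e := by
        rw [div_le_iff₀ hhpos]
        linarith
      have h2 : C * ((l : ℝ) / h) ≤ C * L ^ e := mul_le_mul_of_nonneg_left h1 (by linarith)
      have h3 : 0 ≤ C * L ^ e := mul_nonneg (by linarith) (rpow_nonneg hLpos.le _)
      calc C * ((l : ℝ) / h) * E h ≤ C * L ^ e * E h := mul_le_mul_of_nonneg_right h2 hEh.le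
        _ ≤ C * L ^ e * M := mul_le_mul_of_nonneg_left hM h3
    · have h1 : E l ≤ M := (hmono l h hl1 hlh').trans hM
      have h2 : 1 ≤ C * L ^ e := one_le_mul_of_one_le_of_one_le hC (one_le_rpow hL he.le)
      nlinarith
  | succ j ih =>
    intro h M hrh hlh hM
    have hh1 : 1 ≤ h := hr.trans hrh
    have hhpos : (0 : ℝ) < h := by exact_mod_cast hh1
    have hEh : 0 < E h := hE h hh1
    have hM0 : 0 < M := hEh.trans_le hM
    have hAj : 1 ≤ A ^ j := one_le_pow₀ hA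
    have hCL : 1 ≤ C * L ^ e := one_le_mul_of_one_le_of_one_le hC (one_le_rpow hL he.le)
    have hnext : A ^ j * (C * L ^ e) * (M / E l) + j * A ^ j * err ≤
        A ^ (j + 1) * (C * L ^ e) * (M / E l) + (j + 1 : ℕ) * A ^ (j + 1) * err := by
      have h1 : A ^ j ≤ A ^ (j + 1) := pow_le_pow_right₀ hA (Nat.le_succ j)
      have h2 : A ^ j * (C * L ^ e) * (M / E l) ≤ A ^ (j + 1) * (C * L ^ e) * (M / E l) := by
        refine mul_le_mul_of_nonneg_right (mul_le_mul_of_nonneg_right h1 (by linarith)) (by positivity)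
      have h3 : (j : ℝ) * A ^ j * err ≤ ((j + 1 : ℕ) : ℝ) * A ^ (j + 1) * err := by
        refine mul_le_mul_of_nonneg_right ?_ herr
        refine mul_le_mul ?_ h1 (by linarith) (by positivity)
        push_cast
        linarith
      linarith
    by_cases hMl : E l ≤ M
    · have h1 : T M ≤ A ^ (j + 1) * (C * L ^ e) * (M / E l) := by
        have h2 : 1 ≤ M / E l := by rwa [le_div_iff₀ hEl, one_mul]
        have h3 : 1 ≤ A ^ (j + 1) * (C * L ^ e) := one_le_mul_of_one_le_of_one_le (one_le_pow₀ hA) hCL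
        exact (hT1 M).trans (one_le_mul_of_one_le_of_one_le h3 h2)
      have h2 : 0 ≤ ((j + 1 : ℕ) : ℝ) * A ^ (j + 1) * err := by positivity
      linarith
    push Not at hMl
    have hhl : h ≤ l := by
      by_contra hcon
      have := hmono l h hl1 (by omega)
      linarith
    -- the largest scale with unit at most `M`
    classical
    obtain ⟨h', hh', hh'l, hEh', hmax⟩ : ∃ h' : ℕ, h ≤ h' ∧ h' ≤ l ∧ E h' ≤ M ∧ ∀ n, n ≤ l → h' < n → M < E n := by
      refine ⟨Nat.findGreatest (fun n => E n ≤ M) l, Nat.le_findGreatest hhl hM, Nat.findGreatest_le l,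
        Nat.findGreatest_spec (P := fun n => E n ≤ M) hhl hM, fun n hn hlt => ?_⟩
      have := Nat.findGreatest_is_greatest (P := fun n => E n ≤ M) hlt hn
      exact not_le.1 this
    have hh'1 : 1 ≤ h' := hh1.trans hh'
    have hh'pos : (0 : ℝ) < h' := by exact_mod_cast hh'1
    have hEh'0 : 0 < E h' := hE h' hh'1
    have hh'lt : h' < l := by
      rcases lt_or_eq_of_le hh'l with h1 | h1
      · exact h1
      · rw [h1] at hEh'
        linarith
    have hM2 : M ≤ 2 * C * E h' := by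
      have h1 := (hmax (h' + 1) hh'lt (Nat.lt_succ_self h')).le.trans (hgrow h' (h' + 1) hh'1 (Nat.le_succ h'))
      have h2 : ((h' + 1 : ℕ) : ℝ) / h' ≤ 2 := by
        rw [div_le_iff₀ hh'pos]
        push_cast
        have : (1 : ℝ) ≤ h' := by exact_mod_cast hh'1
        linarith
      have h3 : C * (((h' + 1 : ℕ) : ℝ) / h') * E h' ≤ C * 2 * E h' :=
        mul_le_mul_of_nonneg_right (mul_le_mul_of_nonneg_left h2 (by linarith)) hEh'0.le
      linarith
    set y : ℝ := L ^ (e * (1 + c1) ^ j) with hy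
    have hypos : 0 < y := rpow_pos_of_pos hLpos _
    have hpow1 : 1 ≤ (1 + c1) ^ j := one_le_pow₀ (by linarith)
    have hyL : L ^ e ≤ y := by
      rw [hy]
      refine rpow_le_rpow_of_exponent_le hL ?_
      nlinarith
    rcases le_total (l : ℝ) (h' * y) with hcase | hcase
    · exact (ih h' M (hrh.trans hh') hcase hEh').trans hnext
    -- one step
    have hcase' : (h' : ℝ) * L ^ e ≤ l := (mul_le_mul_of_nonneg_left hyL hh'pos.le).trans hcase
    have hs := step h' M (hrh.trans hh') hcase' hEh' hM2 hmax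
    have hρ' := hρ h' (hrh.trans hh') hcase'
    have hx1 : L ^ e ≤ (l : ℝ) / h' := by
      rw [le_div_iff₀ hh'pos]
      linarith
    have hxpos : (0 : ℝ) < (l : ℝ) / h' := div_pos hlpos hh'pos
    have hxle : (l : ℝ) / h' ≤ y ^ (1 + c1) := by
      have h1 : y ^ (1 + c1) = L ^ (e * (1 + c1) ^ (j + 1)) := by
        rw [hy, ← rpow_mul hLpos.le]
        congr 1
        ring
      rw [h1, div_le_iff₀ hh'pos]
      refine hlh.trans ?_
      rw [mul_comm]
      refine mul_le_mul_of_nonneg_left ?_ (rpow_nonneg hLpos.le _)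
      exact_mod_cast hh'
    have hLy : 2 * C * L ^ ε ≤ y ^ (c1 ^ 2) := by
      refine hLe.trans ?_
      rw [hy, ← rpow_mul hLpos.le]
      refine rpow_le_rpow_of_exponent_le hL ?_
      have : 0 ≤ e * c1 ^ 2 := by positivity
      nlinarith
    -- `E n ≤ M'` for `n = ⌈l / y⌉`
    set M' : ℝ := E h' * ρ h' with hM'
    have hLε : 0 < L ^ ε := rpow_pos_of_pos hLpos _
    have hkey : 2 * C * ((l : ℝ) / h') / y ≤ ρ h' := by
      refine le_trans ?_ hρ'
      rw [rpow_neg hLpos.le, div_le_iff₀ hypos, inv_mul_eq_div, div_mul_eq_mul_div, le_div_iff₀ hLε]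
      have h1 : ((l : ℝ) / h') = ((l : ℝ) / h') ^ c1 * ((l : ℝ) / h') ^ (1 - c1) := by
        rw [← rpow_add hxpos]
        simp
      have h2 : ((l : ℝ) / h') ^ (1 - c1) ≤ (y ^ (1 + c1)) ^ (1 - c1) :=
        rpow_le_rpow hxpos.le hxle (by linarith)
      have h3 : (y ^ (1 + c1)) ^ (1 - c1) * y ^ (c1 ^ 2) = y := by
        rw [← rpow_mul hypos.le, ← rpow_add hypos]
        have : (1 + c1) * (1 - c1) + c1 ^ 2 = 1 := by ring
        rw [this, rpow_one]
      have h4 : ((l : ℝ) / h') ^ (1 - c1) * (2 * C * L ^ ε) ≤ y := by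
        calc ((l : ℝ) / h') ^ (1 - c1) * (2 * C * L ^ ε) ≤ (y ^ (1 + c1)) ^ (1 - c1) * y ^ (c1 ^ 2) :=
              mul_le_mul h2 hLy (by positivity) (by positivity)
          _ = y := h3
      have h5 : 0 ≤ ((l : ℝ) / h') ^ c1 := rpow_nonneg hxpos.le _
      calc 2 * C * ((l : ℝ) / h') * L ^ ε
          = 2 * C * (((l : ℝ) / h') ^ c1 * ((l : ℝ) / h') ^ (1 - c1)) * L ^ ε := by rw [← h1]
        _ = ((l : ℝ) / h') ^ c1 * (((l : ℝ) / h') ^ (1 - c1) * (2 * C * L ^ ε)) := by ring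
        _ ≤ ((l : ℝ) / h') ^ c1 * y := mul_le_mul_of_nonneg_left h4 h5
    have hρpos : 0 < ρ h' := lt_of_lt_of_le (by positivity) hkey
    have hM'pos : 0 < M' := mul_pos hEh'0 hρpos
    have hρ2 : 2 * C ≤ ρ h' := by
      refine le_trans ?_ hρ'
      rw [rpow_neg hLpos.le, inv_mul_eq_div, le_div_iff₀ hLε]
      refine hLe.trans ?_
      refine le_trans ?_ (rpow_le_rpow (rpow_nonneg hLpos.le _) hx1 hc0.le)
      rw [← rpow_mul hLpos.le]
      refine rpow_le_rpow_of_exponent_le hL ?_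
      nlinarith [mul_nonneg he.le (mul_nonneg hc0.le (sub_nonneg.2 hc1))]
    have hMM' : M / M' ≤ 1 := by
      rw [div_le_one hM'pos, hM']
      refine hM2.trans ?_
      rw [mul_comm (E h')]
      exact mul_le_mul_of_nonneg_right hρ2 hEh'0.le
    have hn : T M' ≤ A ^ j * (C * L ^ e) * (M' / E l) + j * A ^ j * err := by
      obtain ⟨n, hn1, hn2⟩ : ∃ n : ℕ, (l : ℝ) / y ≤ n ∧ (n : ℝ) < l / y + 1 :=
        ⟨⌈(l : ℝ) / y⌉₊, Nat.le_ceil _, Nat.ceil_lt_add_one (by positivity)⟩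
      have hly : (h' : ℝ) ≤ l / y := by rwa [le_div_iff₀ hypos]
      have hh'n : h' ≤ n := by exact_mod_cast hly.trans hn1
      refine ih n M' ((hrh.trans hh').trans hh'n) (by rwa [div_le_iff₀ hypos] at hn1) ?_
      refine (hgrow h' n hh'1 hh'n).trans ?_
      have h1 : (1 : ℝ) ≤ h' := by exact_mod_cast hh'1
      have h2 : (n : ℝ) ≤ 2 * (l / y) := by linarith
      have h3 : (n : ℝ) / h' ≤ 2 * (l / y) / h' := by gcongr
      have h4 : C * ((n : ℝ) / h') ≤ ρ h' := by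
        refine le_trans ?_ hkey
        calc C * ((n : ℝ) / h') ≤ C * (2 * (l / y) / h') := mul_le_mul_of_nonneg_left h3 (by linarith)
          _ = 2 * C * ((l : ℝ) / h') / y := by ring
      rw [hM', mul_comm (E h')]
      exact mul_le_mul_of_nonneg_right h4 hEh'0.le
    have hMM'0 : 0 ≤ M / M' := (div_pos hM0 hM'pos).le
    have hAA : A ^ (j + 1) = A * A ^ j := by ring
    calc T M ≤ A * (M / M') * T M' + err := hs
      _ ≤ A * (M / M') * (A ^ j * (C * L ^ e) * (M' / E l) + j * A ^ j * err) + err := by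
          have := mul_le_mul_of_nonneg_left hn (mul_nonneg (by linarith : (0 : ℝ) ≤ A) hMM'0)
          linarith
      _ = A ^ (j + 1) * (C * L ^ e) * (M / E l) + (M / M') * (j * A ^ (j + 1) * err) + err := by
          rw [hAA]
          field_simp
      _ ≤ A ^ (j + 1) * (C * L ^ e) * (M / E l) + ((j + 1 : ℕ) : ℝ) * A ^ (j + 1) * err := by
          have h1 : (M / M') * (j * A ^ (j + 1) * err) ≤ 1 * (j * A ^ (j + 1) * err) :=
            mul_le_mul_of_nonneg_right hMM' (by positivity)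
          have h2 : err ≤ A ^ (j + 1) * err := le_mul_of_one_le_left herr (one_le_pow₀ hA)
          push_cast
          linarith

/-- **The chain**: from the localised steps at all scales `h ≥ r` to the natural price `M / E l` of a near tie. `k` is the number of
steps, it depends on `e` and `c1` only. -/
theorem chain9 {c1 e : ℝ} (hc0 : 0 < c1) (hc1 : c1 ≤ 1) (he : 0 < e) : ∃ k : ℕ,
    ∀ {T : ℝ → ℝ} (_ : ∀ M, 0 ≤ T M) (_ : ∀ M, T M ≤ 1) {E ρ : ℕ → ℝ} {l r : ℕ} {C L ε A err : ℝ}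
    (_ : ∀ n, 1 ≤ n → 0 < E n) (_ : ∀ m n, 1 ≤ m → m ≤ n → E m ≤ E n) (_ : 1 ≤ C)
    (_ : ∀ m n : ℕ, 1 ≤ m → m ≤ n → E n ≤ C * ((n : ℝ) / m) * E m)
    (_ : 1 ≤ r) (_ : r ≤ l) (_ : 1 ≤ L) (_ : (l : ℝ) ≤ r * L)
    (_ : 2 * C * L ^ ε ≤ L ^ (e * c1 ^ 2))
    (_ : ∀ h : ℕ, r ≤ h → (h : ℝ) * L ^ e ≤ l → L ^ (-ε) * ((l : ℝ) / h) ^ c1 ≤ ρ h)
    (_ : 1 ≤ A) (_ : 0 ≤ err)
    (_ : ∀ (h : ℕ) (M : ℝ), r ≤ h → (h : ℝ) * L ^ e ≤ l → E h ≤ M → M ≤ 2 * C * E h →
      (∀ n, n ≤ l → h < n → M < E n) → T M ≤ A * (M / (E h * ρ h)) * T (E h * ρ h) + err),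
    ∀ M, E r ≤ M → T M ≤ A ^ k * (C * L ^ e) * (M / E l) + k * A ^ k * err := by
  obtain ⟨k, hk⟩ : ∃ k : ℕ, 1 ≤ e * (1 + c1) ^ k := by
    obtain ⟨k, hk⟩ := pow_unbounded_of_one_lt (1 / e) (by linarith : (1 : ℝ) < 1 + c1)
    refine ⟨k, ?_⟩
    rw [div_lt_iff₀ he] at hk
    linarith
  refine ⟨k, fun {T} _ hT1 {E ρ l r C L ε A err} hE hmono hC hgrow hr hrl hL hlr hLe hρ hA herr step M hM => ?_⟩
  refine chain_ind hT1 hE hmono hC hgrow hr hrl hL hc0 hc1 he hLe hρ hA herr step k r M le_rfl ?_ hM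
  refine hlr.trans (mul_le_mul_of_nonneg_left ?_ (Nat.cast_nonneg r))
  calc L = L ^ (1 : ℝ) := (rpow_one L).symm
    _ ≤ L ^ (e * (1 + c1) ^ k) := rpow_le_rpow_of_exponent_le hL hk

/-- The chain with the scales of a set `H` (for instance dyadic scales): between `n / 2` and `n` there is a scale of `H`. -/
theorem chain9H {c1 e : ℝ} (hc0 : 0 < c1) (hc1 : c1 ≤ 1) (he : 0 < e) : ∃ k : ℕ,
    ∀ {T : ℝ → ℝ} (_ : ∀ M, 0 ≤ T M) (_ : ∀ M, T M ≤ 1) {E ρ : ℕ → ℝ} {l r : ℕ} {H : Set ℕ} {C L ε A err : ℝ}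
    (_ : ∀ n, 1 ≤ n → 0 < E n) (_ : ∀ m n, 1 ≤ m → m ≤ n → E m ≤ E n) (_ : 1 ≤ C)
    (_ : ∀ m n : ℕ, 1 ≤ m → m ≤ n → E n ≤ C * ((n : ℝ) / m) * E m)
    (_ : 1 ≤ r) (_ : r ≤ l) (_ : r ∈ H) (_ : ∀ n, r ≤ n → ∃ h ∈ H, r ≤ h ∧ h ≤ n ∧ n ≤ 2 * h)
    (_ : 1 ≤ L) (_ : (l : ℝ) ≤ r * L)
    (_ : 4 * C * L ^ ε ≤ L ^ (e * c1 ^ 2))
    (_ : ∀ h : ℕ, h ∈ H → r ≤ h → (h : ℝ) * L ^ e ≤ l → L ^ (-ε) * ((l : ℝ) / h) ^ c1 ≤ ρ h)
    (_ : 1 ≤ A) (_ : 0 ≤ err)
    (_ : ∀ (h : ℕ) (M : ℝ), h ∈ H → r ≤ h → (h : ℝ) * L ^ e ≤ l → E h ≤ M → M ≤ 4 * C * E h →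
      (∀ n ∈ H, n ≤ l → h < n → M < E n) → T M ≤ A * (M / (E h * ρ h)) * T (E h * ρ h) + err),
    ∀ M, E r ≤ M → T M ≤ A ^ k * (4 * C ^ 2 * L ^ e) * (M / E l) + k * A ^ k * err := by
  classical
  obtain ⟨k, hk⟩ := chain9 hc0 hc1 he
  refine ⟨k, fun {T} hT0 hT1 {E ρ l r H C L ε A err} hE hmono hC hgrow hr hrl hrH hH hL hlr hLe hρ hA herr step M hM => ?_⟩
  -- the largest scale of `H` below `n`
  obtain ⟨d, hd⟩ : ∃ d : ℕ → ℕ, d = fun n => if n < r then r else Nat.findGreatest (· ∈ H) n := ⟨_, rfl⟩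
  have hdlt : ∀ n, n < r → d n = r := fun n hn => by rw [hd]; simp [hn]
  have hdge : ∀ n, r ≤ n → d n = Nat.findGreatest (· ∈ H) n := fun n hn => by
    rw [hd]
    simp [not_lt.2 hn]
  have hdH : ∀ n, d n ∈ H := fun n => by
    rcases lt_or_ge n r with hn | hn
    · rw [hdlt n hn]
      exact hrH
    · rw [hdge n hn]
      exact Nat.findGreatest_spec (P := (· ∈ H)) hn hrH
  have hdr : ∀ n, r ≤ d n := fun n => by
    rcases lt_or_ge n r with hn | hn
    · rw [hdlt n hn]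
    · rw [hdge n hn]
      exact Nat.le_findGreatest hn hrH
  have hdle : ∀ n, r ≤ n → d n ≤ n := fun n hn => by
    rw [hdge n hn]
    exact Nat.findGreatest_le n
  have hd2 : ∀ n, r ≤ n → n ≤ 2 * d n := fun n hn => by
    obtain ⟨h, h1, h2, h3, h4⟩ := hH n hn
    have h5 : h ≤ d n := by
      rw [hdge n hn]
      exact Nat.le_findGreatest h3 h1
    omega
  have hdm : ∀ m n, m ≤ n → d m ≤ d n := fun m n hmn => by
    rcases lt_or_ge m r with hm | hm
    · rw [hdlt m hm]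
      exact hdr n
    · rw [hdge m hm, hdge n (hm.trans hmn)]
      exact Nat.findGreatest_mono_right _ hmn
  have hd1 : ∀ n, 1 ≤ d n := fun n => hr.trans (hdr n)
  have hdpos : ∀ n, (0 : ℝ) < d n := fun n => by exact_mod_cast hd1 n
  have hgrow' : ∀ m n : ℕ, 1 ≤ m → m ≤ n → E (d n) ≤ 2 * C * ((n : ℝ) / m) * E (d m) := by
    intro m n hm hmn
    have hm' : (0 : ℝ) < m := by exact_mod_cast hm
    have hEm : 0 < E (d m) := hE _ (hd1 m)
    refine (hgrow (d m) (d n) (hd1 m) (hdm m n hmn)).trans ?_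
    refine mul_le_mul_of_nonneg_right ?_ hEm.le
    have h1 : ((d n : ℕ) : ℝ) / d m ≤ 2 * ((n : ℝ) / m) := by
      rw [div_le_iff₀ (hdpos m), mul_div_assoc', div_mul_eq_mul_div, le_div_iff₀ hm']
      rcases lt_or_ge n r with hn | hn
      · rw [hdlt n hn, hdlt m (lt_of_le_of_lt hmn hn)]
        have h2 : (m : ℝ) ≤ n := by exact_mod_cast hmn
        have h3 : (0 : ℝ) ≤ r := Nat.cast_nonneg r
        nlinarith
      · have h2 : ((d n : ℕ) : ℝ) ≤ n := by exact_mod_cast hdle n hn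
        rcases lt_or_ge m r with hm2 | hm2
        · rw [hdlt m hm2]
          have h3 : (m : ℝ) ≤ r := by exact_mod_cast hm2.le
          have h4 : (0 : ℝ) ≤ n := Nat.cast_nonneg n
          nlinarith
        · have h3 : (m : ℝ) ≤ 2 * d m := by exact_mod_cast hd2 m hm2
          have h4 : (0 : ℝ) ≤ n := Nat.cast_nonneg n
          nlinarith
    calc C * (((d n : ℕ) : ℝ) / d m) ≤ C * (2 * ((n : ℝ) / m)) := mul_le_mul_of_nonneg_left h1 (by linarith)
      _ = 2 * C * ((n : ℝ) / m) := by ring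
  have hmain := hk hT0 hT1 (E := fun n => E (d n)) (ρ := fun n => ρ (d n)) (l := l) (r := r) (C := 2 * C) (L := L)
    (ε := ε) (A := A) (err := err) (fun n _ => hE _ (hd1 n)) (fun m n _ hmn => hmono _ _ (hd1 m) (hdm m n hmn))
    (by linarith) hgrow' hr hrl hL hlr (by linarith) ?_ hA herr ?_ M ?_
  · have hEl := hE l (hr.trans hrl)
    have hEdl := hE (d l) (hd1 l)
    have hM0 : 0 ≤ M := (hE r hr).le.trans hM
    have h1 : E l ≤ 2 * C * E (d l) := by
      refine (hgrow (d l) l (hd1 l) (hdle l hrl)).trans ?_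
      have h2 : (l : ℝ) / d l ≤ 2 := by
        rw [div_le_iff₀ (hdpos l)]
        exact_mod_cast hd2 l hrl
      have h3 : C * ((l : ℝ) / d l) * E (d l) ≤ C * 2 * E (d l) :=
        mul_le_mul_of_nonneg_right (mul_le_mul_of_nonneg_left h2 (by linarith)) hEdl.le
      linarith
    have h4 : M / E (d l) ≤ 2 * C * (M / E l) := by
      rw [div_le_iff₀ hEdl, mul_div_assoc', div_mul_eq_mul_div, le_div_iff₀ hEl]
      nlinarith
    refine hmain.trans ?_
    have h5 : 0 ≤ A ^ k * (2 * C * L ^ e) := by positivity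
    have h6 := mul_le_mul_of_nonneg_left h4 h5
    have h7 : A ^ k * (2 * C * L ^ e) * (2 * C * (M / E l)) = A ^ k * (4 * C ^ 2 * L ^ e) * (M / E l) := by ring
    linarith
  · intro h hrh hhl
    have hdh : ((d h : ℕ) : ℝ) ≤ h := by exact_mod_cast hdle h hrh
    have hLe0 : 0 ≤ L ^ e := rpow_nonneg (by linarith) _
    refine le_trans ?_ (hρ (d h) (hdH h) (hdr h) ((mul_le_mul_of_nonneg_right hdh hLe0).trans hhl))
    refine mul_le_mul_of_nonneg_left ?_ (rpow_nonneg (by linarith) _)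
    refine rpow_le_rpow (by positivity) ?_ hc0.le
    exact div_le_div_of_nonneg_left (Nat.cast_nonneg l) (hdpos h) hdh
  · intro h M' hrh hhl h1 h2 h3
    have hdh : ((d h : ℕ) : ℝ) ≤ h := by exact_mod_cast hdle h hrh
    have hLe0 : 0 ≤ L ^ e := rpow_nonneg (by linarith) _
    refine step (d h) M' (hdH h) (hdr h) ((mul_le_mul_of_nonneg_right hdh hLe0).trans hhl) h1 (by linarith) ?_
    intro n hnH hnl hdn
    have hrn : r ≤ n := (hdr h).trans hdn.le
    have hhn : h < n := by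
      by_contra hcon
      have h4 : n ≤ d h := by
        rw [hdge h hrh]
        exact Nat.le_findGreatest (not_lt.1 hcon) hnH
      omega
    have h5 := h3 n hnl hhn
    have h6 : d n = n := by
      refine le_antisymm (hdle n hrn) ?_
      rw [hdge n hrn]
      exact Nat.le_findGreatest le_rfl hnH
    rwa [h6] at h5
  · show E (d r) ≤ M
    have h1 : d r = r := le_antisymm (hdle r le_rfl) (hdr r)
    rw [h1]
    exact hM

/-- **The chain with dyadic scales `2 ^ i` and two arguments**: `T i M` is the probability of a near tie of depth `M` with the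
class of the scale `i`, nondecreasing in `i`. -/
theorem chain9i {c1 e : ℝ} (hc0 : 0 < c1) (hc1 : c1 ≤ 1) (he : 0 < e) : ∃ k : ℕ,
    ∀ {T : ℕ → ℝ → ℝ} (_ : ∀ i M, 0 ≤ T i M) (_ : ∀ i M, T i M ≤ 1) (_ : ∀ i j M, i ≤ j → T i M ≤ T j M)
    {E ρ : ℕ → ℝ} {l i₀ I : ℕ} {C L ε A err : ℝ}
    (_ : ∀ i, 0 < E i) (_ : ∀ i j, i ≤ j → E i ≤ E j) (_ : 1 ≤ C)
    (_ : ∀ i j : ℕ, i ≤ j → E j ≤ C * (2 : ℝ) ^ (j - i) * E i)
    (_ : i₀ ≤ I) (_ : 2 ^ I ≤ l) (_ : l < 2 ^ (I + 1)) (_ : 1 ≤ L) (_ : (l : ℝ) ≤ 2 ^ i₀ * L)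
    (_ : 8 * C * L ^ ε ≤ L ^ (e * c1 ^ 2))
    (_ : ∀ i : ℕ, i₀ ≤ i → (2 : ℝ) ^ i * L ^ e ≤ l → L ^ (-ε) * ((l : ℝ) / 2 ^ i) ^ c1 ≤ ρ i)
    (_ : 1 ≤ A) (_ : 0 ≤ err)
    (_ : ∀ (i : ℕ) (M : ℝ), i₀ ≤ i → (2 : ℝ) ^ i * L ^ e ≤ l → E i ≤ M → M ≤ 8 * C * E i →
      T i M ≤ A * (M / (E i * ρ i)) * T i (E i * ρ i) + err),
    ∀ M, E i₀ ≤ M → T i₀ M ≤ A ^ k * (16 * C ^ 2 * L ^ e) * (M / E I) + k * A ^ k * err := by
  classical
  obtain ⟨k, hk⟩ := chain9H hc0 hc1 he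
  refine ⟨k, fun {T} hT0 hT1 hTm {E ρ l i₀ I C L ε A err} hE hmono hC hgrow hi0 hIl hlI hL hlr hLe hρ hA herr step M hM => ?_⟩
  have hLpos : 0 < L := by linarith
  have hl0 : l ≠ 0 := by
    have : 0 < 2 ^ I := by positivity
    omega
  -- the largest scale with unit at most `M`
  obtain ⟨ι, hι⟩ : ∃ ι : ℝ → ℕ, ι = fun M => Nat.findGreatest (fun i => E i ≤ M) I := ⟨_, rfl⟩
  have hιle : ∀ M i, i ≤ I → E i ≤ M → i ≤ ι M := fun M i hi h1 => by
    rw [hι]
    exact Nat.le_findGreatest hi h1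
  have hm := hk (T := fun M => T (ι M) M) (fun M => hT0 _ _) (fun M => hT1 _ _) (E := fun n => E (Nat.log 2 n))
    (ρ := fun n => ρ (Nat.log 2 n)) (l := l) (r := 2 ^ i₀) (H := {n | ∃ i, i₀ ≤ i ∧ n = 2 ^ i}) (C := 2 * C) (L := L)
    (ε := ε) (A := A) (err := err) (fun n _ => hE _) (fun m n _ hmn => hmono _ _ (Nat.log_mono_right hmn))
    (by linarith) ?_ Nat.one_le_two_pow ((Nat.pow_le_pow_right (by norm_num) hi0).trans hIl) ⟨i₀, le_rfl, rfl⟩ ?_ hL
    (by push_cast; exact hlr) (by linarith) ?_ hA herr ?_ M ?_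
  · have h1 : Nat.log 2 l = I := by
      rw [Nat.log_eq_iff]
      · exact ⟨hIl, hlI⟩
      · right
        exact ⟨by norm_num, hl0⟩
    rw [h1] at hm
    have h2 : T i₀ M ≤ T (ι M) M := hTm _ _ _ (hιle M i₀ hi0 hM)
    have h3 : A ^ k * (4 * (2 * C) ^ 2 * L ^ e) * (M / E I) = A ^ k * (16 * C ^ 2 * L ^ e) * (M / E I) := by ring
    linarith
  · intro m n hm1 hmn
    have hm0 : m ≠ 0 := by omega
    have hn0 : n ≠ 0 := by omega
    have hlog : Nat.log 2 m ≤ Nat.log 2 n := Nat.log_mono_right hmn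
    refine (hgrow _ _ hlog).trans ?_
    refine mul_le_mul_of_nonneg_right ?_ (hE _).le
    have hm' : (0 : ℝ) < m := by exact_mod_cast hm1
    have h1 : ((2 : ℝ)) ^ Nat.log 2 n ≤ n := by exact_mod_cast Nat.pow_log_le_self 2 hn0
    have h2 : (m : ℝ) ≤ 2 ^ Nat.log 2 m * 2 := by
      have := (Nat.lt_pow_succ_log_self (by norm_num : 1 < 2) m).le
      rw [pow_succ] at this
      exact_mod_cast this
    have h3 : (2 : ℝ) ^ (Nat.log 2 n - Nat.log 2 m) * 2 ^ Nat.log 2 m = 2 ^ Nat.log 2 n := by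
      rw [← pow_add]
      congr 1
      omega
    have h4 : (2 : ℝ) ^ (Nat.log 2 n - Nat.log 2 m) ≤ 2 * ((n : ℝ) / m) := by
      rw [mul_div_assoc', le_div_iff₀ hm']
      have h5 : (0 : ℝ) < 2 ^ (Nat.log 2 n - Nat.log 2 m) := by positivity
      nlinarith
    calc C * (2 : ℝ) ^ (Nat.log 2 n - Nat.log 2 m) ≤ C * (2 * ((n : ℝ) / m)) :=
          mul_le_mul_of_nonneg_left h4 (by linarith)
      _ = 2 * C * ((n : ℝ) / m) := by ring
  · intro n hn
    have hn0 : n ≠ 0 := by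
      have : 0 < 2 ^ i₀ := by positivity
      omega
    have h1 : i₀ ≤ Nat.log 2 n := by
      rw [Nat.le_log_iff_pow_le (by norm_num) hn0]
      exact hn
    refine ⟨2 ^ Nat.log 2 n, ⟨_, h1, rfl⟩, Nat.pow_le_pow_right (by norm_num) h1, Nat.pow_log_le_self 2 hn0, ?_⟩
    have := (Nat.lt_pow_succ_log_self (by norm_num : 1 < 2) n).le
    rw [pow_succ] at this
    omega
  · rintro h ⟨i, hi, rfl⟩ _ hhl
    have h1 : Nat.log 2 (2 ^ i) = i := Nat.log_pow (by norm_num) i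
    rw [h1]
    push_cast at hhl ⊢
    exact hρ i hi hhl
  · rintro h M' ⟨i, hi, rfl⟩ _ hhl h1 h2 h3
    have h4 : Nat.log 2 (2 ^ i) = i := Nat.log_pow (by norm_num) i
    have hiI : i ≤ I := by
      by_contra hcon
      have h5 : (2 : ℝ) ^ (I + 1) ≤ 2 ^ i := pow_le_pow_right₀ (by norm_num) (by omega)
      have h6 : (l : ℝ) < 2 ^ (I + 1) := by exact_mod_cast hlI
      have h7 : 1 ≤ L ^ e := one_le_rpow hL he.le
      have h8 : (0 : ℝ) < 2 ^ i := by positivity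
      push_cast at hhl
      nlinarith
    simp only [h4] at h1 h2 ⊢
    push_cast at hhl
    have h5 : ι M' = i := by
      refine le_antisymm ?_ (hιle M' i hiI h1)
      by_contra hcon
      have h6 : i < ι M' := not_le.1 hcon
      have h7 : ι M' ≤ I := by
        rw [hι]
        exact Nat.findGreatest_le I
      have h8 : E (ι M') ≤ M' := by
        have := Nat.findGreatest_spec (P := fun i => E i ≤ M') hiI h1
        rw [hι]
        exact this
      have h9 := h3 (2 ^ ι M') ⟨_, hi.trans h6.le, rfl⟩ ((Nat.pow_le_pow_right (by norm_num) h7).trans hIl)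
        (Nat.pow_lt_pow_right (by norm_num) h6)
      rw [Nat.log_pow (by norm_num)] at h9
      linarith
    rw [h5]
    have hst := step i M' hi hhl h1 (by linarith)
    have h2i : (0 : ℝ) < 2 ^ i := by positivity
    have hρ1 : 1 ≤ ρ i := by
      refine le_trans ?_ (hρ i hi hhl)
      have hLε : 0 < L ^ ε := rpow_pos_of_pos hLpos _
      have hx1 : L ^ e ≤ (l : ℝ) / 2 ^ i := by
        rw [le_div_iff₀ h2i]
        linarith
      rw [rpow_neg hLpos.le, inv_mul_eq_div, le_div_iff₀ hLε, one_mul]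
      have h6 : L ^ ε ≤ L ^ (e * c1 ^ 2) := by
        have : L ^ ε ≤ 8 * C * L ^ ε := by nlinarith
        linarith
      refine h6.trans ?_
      refine le_trans ?_ (rpow_le_rpow (rpow_nonneg hLpos.le _) hx1 hc0.le)
      rw [← rpow_mul hLpos.le]
      refine rpow_le_rpow_of_exponent_le hL ?_
      nlinarith [mul_nonneg he.le (mul_nonneg hc0.le (sub_nonneg.2 hc1))]
    have h7 : T i (E i * ρ i) ≤ T (ι (E i * ρ i)) (E i * ρ i) := by
      refine hTm _ _ _ (hιle _ i hiI ?_)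
      have := hE i
      nlinarith
    have hM'0 : 0 ≤ M' := (hE i).le.trans h1
    have h8 : 0 ≤ A * (M' / (E i * ρ i)) := by
      have h9 : 0 < E i * ρ i := mul_pos (hE i) (by linarith)
      positivity
    have h10 := mul_le_mul_of_nonneg_left h7 h8
    linarith
  · show E (Nat.log 2 (2 ^ i₀)) ≤ M
    rw [Nat.log_pow (by norm_num)]
    exact hM

end Pool.Agent.W_7d29a1_Z9
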