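import Pool.Agent.W_7d29a1_Z9.Conf9

/-!
STORM Z, second storey (MP_7d29a1_pr): the good event of the confined lower bounds and its probability. (helper9)
-/

namespace Pool.Agent.W_7d29a1_Z9

open MeasureTheory ProbabilityTheory Filter Topology Finset
open Pool.Agent.W_7d29a1_F Pool.Agent.W_7d29a1_h4g Pool.Agent.W_7d29a1_G Pool.Agent.W_7d29a1_L
open Pool.Agent.W_7d29a1_h95g Pool.Agent.W_7d29a1_X
open Pool.Agent.W_7d29a1_SR (In wd St)
open Pool.Agent.W_7d29a1_Z (wd' EE' PBox)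

noncomputable section

variable {μ : Measure ℝ} [IsProbabilityMeasure μ] {c C : ℝ} {n₀ : ℕ}

/-- The upper tail of the tilted luck. -/
theorem T_tail9 (h : In μ c C n₀) {n : ℕ} (hn : n₀ ≤ n) (hw : 1 ≤ wd μ n) {t b : ℝ} (ht : |t| * wd μ n ≤ c * EE μ n) (a : Pt)
    {m : ℕ} (hm : m ≤ 4 * n) :
    (law μ).real {η | b < T μ 0 (1 / 2) t η a m} ≤ C * Real.exp (-(b / (C * EE μ n))) := by
  have hE : 0 < EE μ n := lt_of_lt_of_le one_pos (one_le_EE n)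
  have hC : 0 < C := lt_of_lt_of_le one_pos h.C1
  have hCE : 0 < C * EE μ n := mul_pos hC hE
  obtain ⟨z, hz⟩ : ∃ z : ℝ, z = -(wd μ n / 2) := ⟨_, rfl⟩
  -- the shift
  have hmT : MeasurableSet {η : Env | b < T μ 0 (1 / 2) t η 0 m} := by
    refine measurableSet_lt measurable_const ?_
    unfold T
    exact (measurable_V _ _).add_const _
  have h0 : (law μ).real {η | b < T μ 0 (1 / 2) t η a m} = (law μ).real {η | b < T μ 0 (1 / 2) t η 0 m} := by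
    rw [← real_sh (μ := μ) a hmT]
    congr 1
    ext η
    rw [Set.mem_ofPred_eq, Set.mem_ofPred_eq, Set.mem_ofPred_eq, T_sh, zero_add]
  rw [h0]
  have hle : ∀ η : Env, T μ 0 (1 / 2) t η 0 m ≤ Mh μ 0 (1 / 2) t (wd μ n) z (4 * n) η := by
    intro η
    refine le_Mh (μ := μ) (s := 0) (v := 1 / 2) (h := t) (w := wd μ n) (z := z) (n := 4 * n) η
      (q := ((0, 0), m)) ((mem_Bx (by norm_num) (by norm_num)).2 ⟨by dsimp only; omega, ?_, ?_⟩)
    · push_cast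
      rw [hz]
      linarith
    · push_cast
      rw [hz]
      linarith
  have hint : Integrable (fun η : Env => Real.exp (Mh μ 0 (1 / 2) t (wd μ n) z (4 * n) η / (C * EE μ n))) (law μ) := by
    have h1 := ((Sub_Mh (μ := μ) (s := 0) (v := 1 / 2) (h := t) (w := wd μ n) (z := z) (n := 4 * n)).const_mul
      (C * EE μ n)⁻¹).exp_int h.em
    refine h1.congr (Eventually.of_forall fun η => ?_)
    show Real.exp ((C * EE μ n)⁻¹ * Mh μ 0 (1 / 2) t (wd μ n) z (4 * n) η) =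
      Real.exp (Mh μ 0 (1 / 2) t (wd μ n) z (4 * n) η / (C * EE μ n))
    congr 1
    ring
  have h1 := mul_meas_ge_le_integral_of_nonneg (μ := law μ)
    (Eventually.of_forall fun η => (Real.exp_pos (Mh μ 0 (1 / 2) t (wd μ n) z (4 * n) η / (C * EE μ n))).le) hint
    (Real.exp (b / (C * EE μ n)))
  have h2 : (law μ).real {η | b < T μ 0 (1 / 2) t η 0 m} ≤
      (law μ).real {η | Real.exp (b / (C * EE μ n)) ≤ Real.exp (Mh μ 0 (1 / 2) t (wd μ n) z (4 * n) η / (C * EE μ n))} := by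
    refine measureReal_mono (fun η hη => ?_)
    have hη' : b < T μ 0 (1 / 2) t η 0 m := hη
    show Real.exp (b / (C * EE μ n)) ≤ Real.exp (Mh μ 0 (1 / 2) t (wd μ n) z (4 * n) η / (C * EE μ n))
    exact Real.exp_le_exp.2 (div_le_div_of_nonneg_right (hη'.le.trans (hle η)) hCE.le)
  have h3 : Real.exp (b / (C * EE μ n)) * (law μ).real {η | b < T μ 0 (1 / 2) t η 0 m} ≤ C :=
    (mul_le_mul_of_nonneg_left h2 (Real.exp_nonneg _)).trans (h1.trans (h.luck n hn t z ht))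
  rw [Real.exp_neg, ← div_eq_mul_inv, le_div_iff₀ (Real.exp_pos _), mul_comm]
  exact h3

/-- THE GOOD EVENT: the weights of the box, and the tilted lucks of all the scales `n ≥ n₁`. -/
def CBox (μ : Measure ℝ) (c : ℝ) (n₁ L : ℕ) (δ e : ℝ) (η : Env) : Prop :=
  PBox μ L δ e η ∧ ∀ n : ℕ, n₁ ≤ n → n ≤ L → TBx μ L (4 * n) (c * EE μ n / wd μ n) ((L : ℝ) ^ e * EE μ n) η

theorem cbox (h : In μ c C n₀) (hF : HF2 μ) : ∃ n₁ : ℕ, 1 ≤ n₁ ∧ (∀ n, n₁ ≤ n → wd' μ n = wd μ n ∧ EE' μ n = EE μ n ∧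
    (n : ℝ) ^ (1 / 4 : ℝ) ≤ wd μ n) ∧ ∀ e : ℝ, 0 < e → ∃ δ c' : ℝ, 0 < δ ∧ 0 < c' ∧ ∃ L₀ : ℕ, ∀ L : ℕ, L₀ ≤ L →
    law μ {η | ¬ CBox μ c n₁ L δ e η} ≤ ENNReal.ofReal (Real.exp (-(L : ℝ) ^ c')) := by
  obtain ⟨n₂, hn₂⟩ := Pool.Agent.W_7d29a1_Z.wd'_eq h
  obtain ⟨n₁, hn₁⟩ : ∃ n₁ : ℕ, n₁ = max (max n₀ n₂) 1 := ⟨_, rfl⟩
  have hC1 := h.C1
  have hc0 := h.c0
  have hC0 : 0 < C := lt_of_lt_of_le one_pos hC1
  have q0 : n₀ ≤ n₁ := by rw [hn₁]; exact (le_max_left _ _).trans (le_max_left _ _)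
  have q2 : n₂ ≤ n₁ := by rw [hn₁]; exact (le_max_right _ _).trans (le_max_left _ _)
  have q1 : 1 ≤ n₁ := by rw [hn₁]; exact le_max_right _ _
  refine ⟨n₁, q1, fun n hn => hn₂ n (q2.trans hn), fun e he => ?_⟩
  obtain ⟨δ, c₁, hδ, hc₁, L₀, hP⟩ := Pool.Agent.W_7d29a1_Z.pbox h hF e he
  obtain ⟨L₁, hL₁⟩ := eventually_atTop.1 (Pool.Agent.W_7d29a1_Z22.absorb (80 * C) 4 (show (0 : ℝ) < 1 / C by positivity) he)
  obtain ⟨g, hg⟩ : ∃ g : ℝ, g = min c₁ (e / 2) := ⟨_, rfl⟩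
  have hg0 : 0 < g := by rw [hg]; exact lt_min hc₁ (by positivity)
  obtain ⟨L₂, hL₂⟩ := eventually_atTop.1 (Pool.Agent.W_7d29a1_Z22.absorb 2 0 (show (0 : ℝ) < 1 by norm_num) hg0)
  refine ⟨δ, g / 2, hδ, by positivity, max (max L₀ L₁) (max L₂ 1), fun L hL => ?_⟩
  have hLa : L₀ ≤ L := (le_max_left _ _).trans ((le_max_left _ _).trans hL)
  have hLb : L₁ ≤ L := (le_max_right _ _).trans ((le_max_left _ _).trans hL)
  have hLc : L₂ ≤ L := (le_max_left _ _).trans ((le_max_right _ _).trans hL)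
  have hL1 : 1 ≤ L := (le_max_right _ _).trans ((le_max_right _ _).trans hL)
  have hLR : (1 : ℝ) ≤ L := by exact_mod_cast hL1
  have hL0 : (0 : ℝ) < L := by linarith
  let Bad : ℕ × ℕ × ℕ × ℤ → Set Env := fun q => {η | (L : ℝ) ^ e * EE μ q.1 < T μ 0 (1 / 2) (c * EE μ q.1 / wd μ q.1) η
    ((q.2.1 : ℤ), q.2.2.2) q.2.2.1} ∪ {η | (L : ℝ) ^ e * EE μ q.1 < T μ 0 (1 / 2) (-(c * EE μ q.1 / wd μ q.1)) η
    ((q.2.1 : ℤ), q.2.2.2) q.2.2.1}
  obtain ⟨I, hI⟩ : ∃ I : Finset (ℕ × ℕ × ℕ × ℤ), I = ((Finset.Icc n₁ L) ×ˢ (Finset.range (L + 1)) ×ˢ (Finset.range (L + 1)) ×ˢ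
    (Finset.Icc (-(2 * L : ℤ)) (2 * L))).filter fun q => q.2.2.1 ≤ 4 * q.1 := ⟨_, rfl⟩
  have hsub : {η | ¬ CBox μ c n₁ L δ e η} ⊆ {η | ¬ PBox μ L δ e η} ∪ ⋃ q ∈ I, Bad q := by
    intro η hη
    by_cases hp : PBox μ L δ e η
    · right
      have hη' : ¬ CBox μ c n₁ L δ e η := hη
      unfold CBox at hη'
      rw [not_and] at hη'
      have hη'' := hη' hp
      unfold TBx at hη''
      push Not at hη''
      obtain ⟨n, hn1, hn2, i, m, him, hm, x, hx, hbad⟩ := hη''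
      simp only [Set.mem_iUnion]
      refine ⟨(n, i, m, x), ?_, ?_⟩
      · rw [hI, Finset.mem_filter]
        refine ⟨?_, hm⟩
        rw [Finset.mem_product, Finset.mem_product, Finset.mem_product, Finset.mem_Icc, Finset.mem_range, Finset.mem_range,
          Finset.mem_Icc]
        exact ⟨⟨hn1, hn2⟩, by dsimp only; omega, by dsimp only; omega, abs_le.1 hx⟩
      · by_cases h5 : T μ 0 (1 / 2) (c * EE μ n / wd μ n) η ((i : ℤ), x) m ≤ (L : ℝ) ^ e * EE μ n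
        · exact Or.inr (hbad h5)
        · exact Or.inl (not_le.1 h5)
    · exact Or.inl hp
  have hone : ∀ q ∈ I, (law μ).real (Bad q) ≤ 2 * (C * Real.exp (-(1 / C * (L : ℝ) ^ e))) := by
    intro q hq
    rw [hI, Finset.mem_filter, Finset.mem_product, Finset.mem_Icc] at hq
    obtain ⟨⟨hqn, -⟩, hqm⟩ := hq
    have hw1 : 1 ≤ wd μ q.1 := by
      rw [← (hn₂ q.1 (q2.trans hqn.1)).1]
      exact le_max_left _ _
    have hw0 : 0 < wd μ q.1 := by linarith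
    have hE : 0 < EE μ q.1 := lt_of_lt_of_le one_pos (one_le_EE q.1)
    have ht1 : |c * EE μ q.1 / wd μ q.1| * wd μ q.1 ≤ c * EE μ q.1 := by
      rw [abs_of_nonneg (by positivity)]
      refine le_of_eq ?_
      field_simp
    have ht2 : |(-(c * EE μ q.1 / wd μ q.1))| * wd μ q.1 ≤ c * EE μ q.1 := by rw [abs_neg]; exact ht1
    have e1 : (L : ℝ) ^ e * EE μ q.1 / (C * EE μ q.1) = 1 / C * (L : ℝ) ^ e := by field_simp
    have u1 := T_tail9 h (q0.trans hqn.1) hw1 (b := (L : ℝ) ^ e * EE μ q.1) ht1 ((q.2.1 : ℤ), q.2.2.2) hqm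
    have u2 := T_tail9 h (q0.trans hqn.1) hw1 (b := (L : ℝ) ^ e * EE μ q.1) ht2 ((q.2.1 : ℤ), q.2.2.2) hqm
    rw [e1] at u1 u2
    have u3 := measureReal_union_le (μ := law μ) {η | (L : ℝ) ^ e * EE μ q.1 < T μ 0 (1 / 2) (c * EE μ q.1 / wd μ q.1) η
      ((q.2.1 : ℤ), q.2.2.2) q.2.2.1} {η | (L : ℝ) ^ e * EE μ q.1 < T μ 0 (1 / 2) (-(c * EE μ q.1 / wd μ q.1)) η
      ((q.2.1 : ℤ), q.2.2.2) q.2.2.1}
    refine u3.trans ?_
    linarith
  have hcard : (I.card : ℝ) ≤ 40 * (L : ℝ) ^ 4 := by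
    have c1 : I.card ≤ (Finset.Icc n₁ L).card * ((L + 1) * ((L + 1) * (4 * L + 1))) := by
      rw [hI]
      refine (Finset.card_filter_le _ _).trans ?_
      rw [Finset.card_product, Finset.card_product, Finset.card_product, Finset.card_range, Int.card_Icc]
      have e : ((2 * L : ℤ) + 1 - -(2 * L : ℤ)).toNat = 4 * L + 1 := by omega
      rw [e]
    have c2 : (Finset.Icc n₁ L).card ≤ L + 1 := by
      rw [Nat.card_Icc]
      omega
    have c3 : I.card ≤ (L + 1) * ((L + 1) * ((L + 1) * (4 * L + 1))) := c1.trans (Nat.mul_le_mul_right _ c2)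
    have c4 : (I.card : ℝ) ≤ ((L : ℝ) + 1) * ((L + 1) * ((L + 1) * (4 * L + 1))) := by exact_mod_cast c3
    have a1 : (L : ℝ) + 1 ≤ 2 * L := by linarith
    have a2 : 4 * (L : ℝ) + 1 ≤ 5 * L := by linarith
    calc (I.card : ℝ) ≤ ((L : ℝ) + 1) * ((L + 1) * ((L + 1) * (4 * L + 1))) := c4
      _ ≤ (2 * L) * ((2 * L) * ((2 * L) * (5 * L))) := by gcongr
      _ = 40 * (L : ℝ) ^ 4 := by ring
  have hbad : (law μ).real (⋃ q ∈ I, Bad q) ≤ Real.exp (-(L : ℝ) ^ (e / 2)) := by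
    refine (measureReal_biUnion_finset_le _ _).trans ?_
    refine (Finset.sum_le_card_nsmul _ _ _ hone).trans ?_
    rw [nsmul_eq_mul]
    refine le_trans ?_ (hL₁ L hLb)
    have hpos : 0 ≤ 2 * (C * Real.exp (-(1 / C * (L : ℝ) ^ e))) := by positivity
    refine (mul_le_mul_of_nonneg_right hcard hpos).trans (le_of_eq ?_)
    have e4 : (L : ℝ) ^ (4 : ℝ) = (L : ℝ) ^ (4 : ℕ) := by
      rw [← Real.rpow_natCast]
      norm_num
    rw [e4]
    ring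
  have hreal : law μ {η | ¬ CBox μ c n₁ L δ e η} ≤
      ENNReal.ofReal (Real.exp (-(L : ℝ) ^ c₁)) + ENNReal.ofReal (Real.exp (-(L : ℝ) ^ (e / 2))) := by
    refine (measure_mono hsub).trans ((measure_union_le _ _).trans (add_le_add (hP L hLa) ?_))
    calc law μ (⋃ q ∈ I, Bad q) = ENNReal.ofReal ((law μ).real (⋃ q ∈ I, Bad q)) :=
          (ENNReal.ofReal_toReal (measure_ne_top _ _)).symm
      _ ≤ _ := ENNReal.ofReal_le_ofReal hbad
  refine hreal.trans ?_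
  rw [← ENNReal.ofReal_add (Real.exp_nonneg _) (Real.exp_nonneg _)]
  refine ENNReal.ofReal_le_ofReal ?_
  have v1 : Real.exp (-(L : ℝ) ^ c₁) ≤ Real.exp (-(L : ℝ) ^ g) :=
    Real.exp_le_exp.2 (neg_le_neg (Real.rpow_le_rpow_of_exponent_le hLR (by rw [hg]; exact min_le_left _ _)))
  have v2 : Real.exp (-(L : ℝ) ^ (e / 2)) ≤ Real.exp (-(L : ℝ) ^ g) :=
    Real.exp_le_exp.2 (neg_le_neg (Real.rpow_le_rpow_of_exponent_le hLR (by rw [hg]; exact min_le_right _ _)))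
  have v3 := hL₂ L hLc
  rw [Real.rpow_zero, mul_one, one_mul] at v3
  linarith

end

end Pool.Agent.W_7d29a1_Z9
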