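import Pool.Agent.W_7d29a1_Z9.ConfB9

/-!
STORM Z, second storey (MP_7d29a1_pr): THE CONFINED LOWER BOUNDS. (helper9)
-/

namespace Pool.Agent.W_7d29a1_Z9

open MeasureTheory ProbabilityTheory Filter Topology Finset
open Pool.Agent.W_7d29a1_F Pool.Agent.W_7d29a1_h4g Pool.Agent.W_7d29a1_G Pool.Agent.W_7d29a1_L
open Pool.Agent.W_7d29a1_h95g Pool.Agent.W_7d29a1_X
open Pool.Agent.W_7d29a1_SR (In wd St)
open Pool.Agent.W_7d29a1_Z (wd' EE' PBox)

noncomputable section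

variable {μ : Measure ℝ} [IsProbabilityMeasure μ] {c C : ℝ} {n₀ : ℕ}

theorem ev_ge (g A : ℝ) (hg : 0 < g) : ∀ᶠ L : ℕ in atTop, A ≤ (L : ℝ) ^ g :=
  ((tendsto_rpow_atTop hg).comp tendsto_natCast_atTop_atTop).eventually_ge_atTop A

theorem ev_log (e : ℝ) (he : 0 < e) : ∀ᶠ L : ℕ in atTop, Real.log (4 * (L : ℝ)) ≤ (L : ℝ) ^ e := by
  have h1 : Tendsto (fun L : ℕ => 4 * (L : ℝ)) atTop atTop := tendsto_natCast_atTop_atTop.const_mul_atTop (by norm_num)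
  have h2 := (isLittleO_log_rpow_atTop (show 0 < e / 2 by positivity)).bound (show (0 : ℝ) < 1 by norm_num)
  filter_upwards [h1.eventually h2, ev_ge (e / 2) ((4 : ℝ) ^ (e / 2)) (by positivity), eventually_ge_atTop 1] with L h3 h4 h5
  have hL : (1 : ℝ) ≤ L := by exact_mod_cast h5
  have hL0 : (0 : ℝ) < L := by linarith
  rw [one_mul, Real.norm_of_nonneg (Real.rpow_nonneg (by positivity) _)] at h3
  calc Real.log (4 * (L : ℝ)) ≤ ‖Real.log (4 * (L : ℝ))‖ := Real.le_norm_self _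
    _ ≤ (4 * (L : ℝ)) ^ (e / 2) := h3
    _ = 4 ^ (e / 2) * (L : ℝ) ^ (e / 2) := Real.mul_rpow (by norm_num) hL0.le
    _ ≤ (L : ℝ) ^ (e / 2) * (L : ℝ) ^ (e / 2) := mul_le_mul_of_nonneg_right h4 (by positivity)
    _ = (L : ℝ) ^ e := by rw [← Real.rpow_add hL0]; congr 1; ring

/-- ONE SCALE: the durations in `[n, 2 n]`, displacements in the cone of `PBox`. -/
theorem base9 (h : In μ c C n₀) {n₁ : ℕ} (hn1 : 1 ≤ n₁) (hq : ∀ n, n₁ ≤ n → wd' μ n = wd μ n ∧ EE' μ n = EE μ n ∧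
    (n : ℝ) ^ (1 / 4 : ℝ) ≤ wd μ n) {e : ℝ} (he : 0 < e) (δ : ℝ) : ∃ K₂ : ℝ, 1 ≤ K₂ ∧ ∃ L₀ : ℕ, ∀ L : ℕ, L₀ ≤ L → ∀ η : Env,
    CBox μ c n₁ L δ e η → ∀ n : ℕ, n₁ ≤ n → n ≤ L → ∀ i m : ℕ, n ≤ m → m ≤ 2 * n → i + m ≤ L → ∀ x : ℤ, |x| + m ≤ 2 * L →
    ∀ y : ℤ, 0 ≤ y → y ≤ m → |2 * (y : ℝ) - m| ≤ 2 * ((L : ℝ) ^ δ * wd' μ m) →
      Real.exp (-(K₂ * ((L : ℝ) ^ e * EE' μ n))) ≤
        WR μ 0 (Sb (2 * (⌈(L : ℝ) ^ (3 * e / 2) * wd' μ n⌉₊ : ℝ)) ((i : ℤ), x)) η ((i : ℤ), x) m y := by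
  obtain ⟨aE, KE, haE, -, hKE, hEp⟩ := Pool.Agent.W_7d29a1_Z.EE'_pow h
  have hc0 := h.c0
  obtain ⟨Q, hQ⟩ : ∃ Q : ℝ, Q = 2 + (2 * KE ^ 2 + EE' μ 0) + 2 * KE := ⟨_, rfl⟩
  have hE00 : 0 ≤ EE' μ 0 := zero_le_one.trans (le_max_left _ _)
  have hQ0 : 0 < Q := by rw [hQ]; positivity
  obtain ⟨L₁, hL₁⟩ := eventually_atTop.1 (ev_log e he)
  obtain ⟨L₂, hL₂⟩ := eventually_atTop.1 (ev_ge (e / 2) (2 * Q / c) (by positivity))
  refine ⟨2 * KE + 1, by linarith, max (max L₁ L₂) 1, fun L hL η hG n hn hnL i m hnm hm him x hx y hy0 hy1 hy => ?_⟩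
  have hLa : L₁ ≤ L := (le_max_left _ _).trans ((le_max_left _ _).trans hL)
  have hLb : L₂ ≤ L := (le_max_right _ _).trans ((le_max_left _ _).trans hL)
  have hL1 : 1 ≤ L := (le_max_right _ _).trans hL
  have hLR : (1 : ℝ) ≤ L := by exact_mod_cast hL1
  have hL0 : (0 : ℝ) < L := by linarith
  obtain ⟨hP, hTB⟩ := hG
  obtain ⟨hwn, hEn, -⟩ := hq n hn
  have hn1' : 1 ≤ n := hn1.trans hn
  have hnR : (0 : ℝ) < n := by exact_mod_cast hn1'
  have hm1 : 1 ≤ m := hn1'.trans hnm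
  have hmR : (0 : ℝ) < m := by exact_mod_cast hm1
  obtain ⟨E, hE⟩ : ∃ E : ℝ, E = EE' μ n := ⟨_, rfl⟩
  have hE1 : 1 ≤ E := by rw [hE]; exact le_max_left _ _
  have hE0 : 0 < E := by linarith
  obtain ⟨w, hw⟩ : ∃ w : ℝ, w = wd' μ n := ⟨_, rfl⟩
  have hw1 : 1 ≤ w := by rw [hw]; exact le_max_left _ _
  have hw0 : 0 < w := by linarith
  obtain ⟨P, hPd⟩ : ∃ P : ℝ, P = (L : ℝ) ^ e := ⟨_, rfl⟩
  have hP1 : 1 ≤ P := by rw [hPd]; exact Real.one_le_rpow hLR he.le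
  have hP0 : 0 < P := by linarith
  obtain ⟨P', hP'⟩ : ∃ P' : ℝ, P' = (L : ℝ) ^ (3 * e / 2) := ⟨_, rfl⟩
  have hPP : P' = P * (L : ℝ) ^ (e / 2) := by
    rw [hP', hPd, ← Real.rpow_add hL0]
    congr 1
    ring
  have hP'1 : 1 ≤ P' := by rw [hP']; exact Real.one_le_rpow hLR (by positivity)
  obtain ⟨K, hK⟩ : ∃ K : ℕ, K = ⌈(L : ℝ) ^ (3 * e / 2) * wd' μ n⌉₊ := ⟨_, rfl⟩
  have hKw : P' * w ≤ K := by
    rw [hK, hP', hw]
    exact Nat.le_ceil _
  have hK1 : 1 ≤ K := by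
    have : (1 : ℝ) ≤ K := by nlinarith
    exact_mod_cast this
  -- the numbers
  have hEm : EE' μ m ≤ 2 * KE * E := by
    have h1 := (hEp n m hn1' hnm).2.2
    have h2 : Real.sqrt ((m : ℝ) / n) ≤ 2 := by
      rw [Real.sqrt_le_left (by norm_num), div_le_iff₀ hnR]
      have : (m : ℝ) ≤ 2 * n := by exact_mod_cast hm
      linarith
    rw [hE]
    calc EE' μ m ≤ KE * Real.sqrt ((m : ℝ) / n) * EE' μ n := h1
      _ ≤ KE * 2 * EE' μ n := by
          refine mul_le_mul_of_nonneg_right (mul_le_mul_of_nonneg_left h2 (by linarith)) ?_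
          exact zero_le_one.trans (le_max_left _ _)
      _ = 2 * KE * EE' μ n := by ring
  obtain ⟨B, hB⟩ : ∃ B : ℝ, B = (2 * KE ^ 2 + EE' μ 0) * (P * E) := ⟨_, rfl⟩
  have hBl : ∀ j l : ℕ, j + l ≤ L → l ≤ 4 * n → ∀ u : ℤ, |u| ≤ 2 * L → ∀ z : ℤ, 0 ≤ z → z ≤ l →
      W μ 0 η ((j : ℤ), u) l z ≤ Real.exp B := by
    intro j l hjl hl u hu z hz0 hz1
    refine (hP j l hjl u hu z hz0 hz1).1.trans (Real.exp_le_exp.2 ?_)
    rw [← hPd, hB]
    have h3 : EE' μ l ≤ (2 * KE ^ 2 + EE' μ 0) * E := by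
      rcases Nat.eq_zero_or_pos l with h0 | h0
      · subst h0
        have h5 : EE' μ 0 * 1 ≤ EE' μ 0 * E := mul_le_mul_of_nonneg_left hE1 hE00
        have h6 : 0 ≤ 2 * KE ^ 2 * E := by positivity
        linarith
      · have h1 := (hEp l (4 * n) h0 hl).1
        have h2 := (hEp n (4 * n) hn1' (by omega)).2.2
        have e1 : (((4 * n : ℕ) : ℝ)) / n = 4 := by
          push_cast
          field_simp
        have e2 : Real.sqrt 4 = 2 := by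
          rw [show (4 : ℝ) = 2 ^ 2 by norm_num, Real.sqrt_sq (by norm_num)]
        rw [e1, e2, ← hE] at h2
        have h7 : KE * EE' μ (4 * n) ≤ KE * (KE * 2 * E) := mul_le_mul_of_nonneg_left h2 (by linarith)
        have h8 : 0 ≤ EE' μ 0 * E := mul_nonneg hE00 hE0.le
        calc EE' μ l ≤ KE * (KE * 2 * E) := h1.trans h7
          _ = 2 * KE ^ 2 * E := by ring
          _ ≤ _ := by linarith
    calc P * EE' μ l ≤ P * ((2 * KE ^ 2 + EE' μ 0) * E) := mul_le_mul_of_nonneg_left h3 hP0.le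
      _ = _ := by ring
  obtain ⟨t, ht⟩ : ∃ t : ℝ, t = c * E / w := ⟨_, rfl⟩
  have ht0 : 0 ≤ t := by rw [ht]; positivity
  have hTB' : TBx μ L (4 * n) t (P * E) η := by
    have h1 := hTB n hn hnL
    rw [← hwn, ← hEn, ← hE, ← hw, ← hPd, ← ht] at h1
    exact h1
  have hdet := conf_det (μ := μ) (y := y) ht0 hK1 him (show m ≤ 4 * n by omega) hx hTB' hBl
  -- the lower bound of the full weight
  have hlow := (hP i m him x (by omega) y hy0 hy1).2.2 hy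
  rw [← hPd] at hlow
  have hlow' : Real.exp (-(2 * KE * (P * E))) ≤ W μ 0 η ((i : ℤ), x) m y := by
    refine le_trans (Real.exp_le_exp.2 ?_) hlow
    have : P * EE' μ m ≤ P * (2 * KE * E) := mul_le_mul_of_nonneg_left hEm hP0.le
    linarith
  -- the penalty
  have hpen : c / 2 * (P' * E) ≤ t * (K - 1 / 2) := by
    have h1 : P' * w / 2 ≤ (K : ℝ) - 1 / 2 := by nlinarith
    calc c / 2 * (P' * E) = t * (P' * w / 2) := by rw [ht]; field_simp
      _ ≤ t * (K - 1 / 2) := mul_le_mul_of_nonneg_left h1 ht0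
  have hlog : Real.log (4 * (m : ℝ)) ≤ P * E := by
    have h1 : (m : ℝ) ≤ L := by
      have : m ≤ L := by omega
      exact_mod_cast this
    calc Real.log (4 * (m : ℝ)) ≤ Real.log (4 * (L : ℝ)) := Real.log_le_log (by positivity) (by linarith)
      _ ≤ P := by rw [hPd]; exact hL₁ L hLa
      _ ≤ P * E := le_mul_of_one_le_right hP0.le hE1
  have hbig : Q * (P * E) ≤ c / 2 * (P' * E) := by
    have h1 := hL₂ L hLb
    rw [div_le_iff₀ hc0] at h1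
    have h2 : Q ≤ c / 2 * (L : ℝ) ^ (e / 2) := by linarith
    calc Q * (P * E) ≤ (c / 2 * (L : ℝ) ^ (e / 2)) * (P * E) := mul_le_mul_of_nonneg_right h2 (by positivity)
      _ = c / 2 * (P' * E) := by rw [hPP]; ring
  have hexit : 2 * (m : ℝ) * Real.exp (P * E + B - t * (K - 1 / 2)) ≤ 1 / 2 * Real.exp (-(2 * KE * (P * E))) := by
    have h1 : 4 * (m : ℝ) ≤ Real.exp (P * E) := by
      rw [← Real.exp_log (show (0 : ℝ) < 4 * m by positivity)]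
      exact Real.exp_le_exp.2 hlog
    have h2 : 2 * (m : ℝ) * Real.exp (P * E + B - t * (K - 1 / 2)) ≤
        1 / 2 * (Real.exp (P * E) * Real.exp (P * E + B - t * (K - 1 / 2))) := by
      have := mul_le_mul_of_nonneg_right h1 (Real.exp_nonneg (P * E + B - t * (K - 1 / 2)))
      linarith
    refine h2.trans ?_
    rw [← Real.exp_add]
    refine mul_le_mul_of_nonneg_left (Real.exp_le_exp.2 ?_) (by norm_num)
    rw [hB]
    rw [hQ] at hbig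
    linarith
  have hfin : 1 / 2 * Real.exp (-(2 * KE * (P * E))) ≤ WR μ 0 (St K ((i : ℤ), x)) η ((i : ℤ), x) m y := by linarith
  have hhalf : Real.exp (-((2 * KE + 1) * (P * E))) ≤ 1 / 2 * Real.exp (-(2 * KE * (P * E))) := by
    have h1 : Real.exp (-(P * E)) ≤ 1 / 2 := by
      have h2 : 1 ≤ P * E := one_le_mul_of_one_le_of_one_le hP1 hE1
      have h3 : Real.exp (-(P * E)) ≤ Real.exp (-1) := Real.exp_le_exp.2 (by linarith)
      have h4 : Real.exp (-1) ≤ 1 / 2 := by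
        rw [Real.exp_neg, inv_le_comm₀ (Real.exp_pos _) (by norm_num)]
        have := Real.add_one_le_exp (1 : ℝ)
        norm_num
        linarith
      linarith
    have e1 : -((2 * KE + 1) * (P * E)) = -(P * E) + -(2 * KE * (P * E)) := by ring
    rw [e1, Real.exp_add]
    exact mul_le_mul_of_nonneg_right h1 (Real.exp_nonneg _)
  rw [← hPd, ← hE, ← hK]
  exact hhalf.trans hfin

end

end Pool.Agent.W_7d29a1_Z9
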