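import Pool.Agent.W_7d29a1_Z9.ConfC9

/-!
STORM Z, second storey (MP_7d29a1_pr): THE CONFINED LOWER BOUNDS at the scale `2 ^ i` for the displacements of the order
`L ^ e wd' (2 ^ i)`, by chopping in `2 ^ j ~ L ^ (2 e / a)` pieces. (helper9)
-/

namespace Pool.Agent.W_7d29a1_Z9

open MeasureTheory ProbabilityTheory Filter Topology Finset
open Pool.Agent.W_7d29a1_F Pool.Agent.W_7d29a1_h4g Pool.Agent.W_7d29a1_G Pool.Agent.W_7d29a1_L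
open Pool.Agent.W_7d29a1_h95g Pool.Agent.W_7d29a1_X
open Pool.Agent.W_7d29a1_SR (In wd St)
open Pool.Agent.W_7d29a1_Z (wd' EE' PBox)

noncomputable section

variable {μ : Measure ℝ} [IsProbabilityMeasure μ] {c C : ℝ} {n₀ : ℕ}

theorem pow_two_near {x : ℝ} (hx : 1 ≤ x) : ∃ j : ℕ, x ≤ 2 ^ j ∧ (2 : ℝ) ^ j ≤ 2 * x := by
  obtain ⟨k, h1, h2⟩ := exists_nat_pow_near hx (show (1 : ℝ) < 2 by norm_num)
  refine ⟨k + 1, h2.le, ?_⟩
  rw [pow_succ]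
  linarith

theorem conf9 (h : In μ c C n₀) (hF : HF2 μ) : ∃ C₇ : ℝ, 1 ≤ C₇ ∧ ∃ n₁ : ℕ, 1 ≤ n₁ ∧
    ∀ e1 ε₂ : ℝ, 0 < e1 → 0 < ε₂ → ∃ e₀ : ℝ, 0 < e₀ ∧ ∀ e : ℝ, 0 < e → e < e₀ → ∀ C₅ : ℝ, 1 ≤ C₅ →
    ∃ δ c' : ℝ, 0 < δ ∧ 0 < c' ∧ ∃ L₀ : ℕ, ∀ L : ℕ, L₀ ≤ L →
      law μ {η | ¬ CBox μ c n₁ L δ e η} ≤ ENNReal.ofReal (Real.exp (-(L : ℝ) ^ c')) ∧
      ∀ η : Env, CBox μ c n₁ L δ e η → ∀ i : ℕ, (L : ℝ) ^ e1 ≤ ((2 ^ i : ℕ) : ℝ) → 2 ^ i ≤ L →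
        ∀ Dv : ℝ, 0 ≤ Dv → Dv ≤ C₅ * ((L : ℝ) ^ e * wd' μ (2 ^ i)) →
        ∀ s m : ℕ, 2 ^ i ≤ 4 * m → 2 * m ≤ 2 ^ i → s + m ≤ L → ∀ x : ℤ, |x| + m ≤ 2 * L → ∀ y : ℤ, |2 * (y : ℝ) - m| ≤ Dv + 2 →
          Real.exp (-((L : ℝ) ^ ε₂ * EE' μ (2 ^ i))) ≤
            WR μ 0 (Sb (C₇ * wd' μ (2 ^ i) + Dv) ((s : ℤ), x)) η ((s : ℤ), x) m y := by
  obtain ⟨a, K, ha0, ha1, hK1, hwp⟩ := Pool.Agent.W_7d29a1_Z.wd'_pow h hF
  obtain ⟨aE, KE, haE, -, hKE, hEp⟩ := Pool.Agent.W_7d29a1_Z.EE'_pow h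
  obtain ⟨n₁, hn1, hq, hcb⟩ := cbox h hF
  refine ⟨2 * K + 6, by linarith, n₁, hn1, fun e1 ε₂ he1 hε₂ => ?_⟩
  have hK0 : 0 < K := by linarith
  obtain ⟨e₀, he₀⟩ : ∃ e₀ : ℝ, e₀ = min (a * e1 / 8) (ε₂ / (2 * (2 / a + 1))) := ⟨_, rfl⟩
  have hq0 : 0 < 2 / a + 1 := by positivity
  refine ⟨e₀, by rw [he₀]; exact lt_min (by positivity) (by positivity), fun e he hee C₅ hC₅ => ?_⟩
  have hea : e < a * e1 / 8 := hee.trans_le (by rw [he₀]; exact min_le_left _ _)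
  have heb : e < ε₂ / (2 * (2 / a + 1)) := hee.trans_le (by rw [he₀]; exact min_le_right _ _)
  obtain ⟨X, hX⟩ : ∃ X : ℝ, X = 2 * e / a := ⟨_, rfl⟩
  have hXa : X * a = 2 * e := by rw [hX]; field_simp
  have hX0 : 0 < X := by rw [hX]; positivity
  have hX4 : X < e1 / 4 := by
    rw [hX, div_lt_iff₀ ha0]
    linarith
  have hXe : X + e < ε₂ / 2 := by
    rw [lt_div_iff₀ (by positivity)] at heb
    have e2 : X + e = e * (2 / a + 1) := by rw [hX]; ring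
    rw [e2]
    linarith
  obtain ⟨δ, c', hδ, hc', L₀, hprob⟩ := hcb e he
  obtain ⟨K₂, hK₂, L₁, hbase⟩ := base9 h hn1 hq he δ
  obtain ⟨n₃, hn₃⟩ := eventually_atTop.1 (h.tv.eventually_le_const (show (0 : ℝ) < 1 / 2 by norm_num))
  obtain ⟨N, hN⟩ : ∃ N : ℕ, N = max (max n₁ n₃) 16 := ⟨_, rfl⟩
  obtain ⟨L₂, hL₂⟩ := eventually_atTop.1 (ev_ge (e1 - X) (8 * N) (by linarith))
  obtain ⟨L₃, hL₃⟩ := eventually_atTop.1 (ev_ge e (8 * K ^ 2 * C₅) he)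
  obtain ⟨L₄, hL₄⟩ := eventually_atTop.1 (ev_ge (ε₂ / 2) (2 * K₂ * KE) (by positivity))
  refine ⟨δ, c', hδ, hc', max (max (max L₀ L₁) (max L₂ L₃)) (max L₄ 1), fun L hL => ?_⟩
  have hLa : L₀ ≤ L := (le_max_left _ _).trans ((le_max_left _ _).trans ((le_max_left _ _).trans hL))
  have hLb : L₁ ≤ L := (le_max_right _ _).trans ((le_max_left _ _).trans ((le_max_left _ _).trans hL))
  have hLc : L₂ ≤ L := (le_max_left _ _).trans ((le_max_right _ _).trans ((le_max_left _ _).trans hL))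
  have hLd : L₃ ≤ L := (le_max_right _ _).trans ((le_max_right _ _).trans ((le_max_left _ _).trans hL))
  have hLe : L₄ ≤ L := (le_max_left _ _).trans ((le_max_right _ _).trans hL)
  have hL1 : 1 ≤ L := (le_max_right _ _).trans ((le_max_right _ _).trans hL)
  refine ⟨hprob L hLa, fun η hG i hi hiL Dv hDv hDv' s m hm1 hm2 hsm x hx y hy => ?_⟩
  have hLR : (1 : ℝ) ≤ L := by exact_mod_cast hL1
  have hL0 : (0 : ℝ) < L := by linarith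
  have hLX1 : 1 ≤ (L : ℝ) ^ X := Real.one_le_rpow hLR hX0.le
  obtain ⟨j, hj1, hj2⟩ := pow_two_near hLX1
  have hN16 : 16 ≤ N := by rw [hN]; exact le_max_right _ _
  have hNn1 : n₁ ≤ N := by rw [hN]; exact (le_max_left _ _).trans (le_max_left _ _)
  have hNn3 : n₃ ≤ N := by rw [hN]; exact (le_max_right _ _).trans (le_max_left _ _)
  -- the small scale
  have hbigh : (N : ℝ) * (8 * (L : ℝ) ^ X) ≤ ((2 ^ i : ℕ) : ℝ) := by
    refine le_trans ?_ hi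
    have h1 := hL₂ L hLc
    have e2 : (L : ℝ) ^ e1 = (L : ℝ) ^ (e1 - X) * (L : ℝ) ^ X := by
      rw [← Real.rpow_add hL0]
      congr 1
      ring
    rw [e2]
    calc (N : ℝ) * (8 * (L : ℝ) ^ X) = (8 * N) * (L : ℝ) ^ X := by ring
      _ ≤ _ := mul_le_mul_of_nonneg_right h1 (by positivity)
  have h2j : ((2 ^ (j + 2) : ℕ) : ℝ) ≤ 8 * (L : ℝ) ^ X := by
    push_cast
    rw [pow_add]
    linarith
  have hNR : (16 : ℝ) ≤ N := by exact_mod_cast hN16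
  have hji : j + 2 ≤ i := by
    have h1 : ((2 ^ (j + 2) : ℕ) : ℝ) ≤ ((2 ^ i : ℕ) : ℝ) := by
      refine h2j.trans (le_trans ?_ hbigh)
      have h3 : 0 ≤ 8 * (L : ℝ) ^ X := by positivity
      have : 1 * (8 * (L : ℝ) ^ X) ≤ N * (8 * (L : ℝ) ^ X) := mul_le_mul_of_nonneg_right (by linarith) h3
      linarith
    have h2 : 2 ^ (j + 2) ≤ 2 ^ i := by exact_mod_cast h1
    exact (Nat.pow_le_pow_iff_right (by norm_num)).1 h2
  obtain ⟨k, hk⟩ : ∃ k : ℕ, i = k + (j + 2) := ⟨i - (j + 2), by omega⟩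
  obtain ⟨n, hn⟩ : ∃ n : ℕ, n = 2 ^ k := ⟨_, rfl⟩
  have hpi : 2 ^ i = n * 2 ^ (j + 2) := by rw [hk, pow_add, hn]
  have hn0 : 1 ≤ n := by rw [hn]; exact Nat.one_le_two_pow
  have hnR0 : (0 : ℝ) < n := by exact_mod_cast hn0
  have hNn : N ≤ n := by
    have h1 : (N : ℝ) * (8 * (L : ℝ) ^ X) ≤ n * (8 * (L : ℝ) ^ X) := by
      refine hbigh.trans ?_
      rw [hpi, Nat.cast_mul]
      exact mul_le_mul_of_nonneg_left h2j hnR0.le
    have h2 : (N : ℝ) ≤ n := le_of_mul_le_mul_right h1 (by positivity)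
    exact_mod_cast h2
  have hnn1 : n₁ ≤ n := hNn1.trans hNn
  have hnh : n ≤ 2 ^ i := by
    rw [hpi]
    exact Nat.le_mul_of_pos_right n (by positivity)
  have hnL : n ≤ L := hnh.trans hiL
  have hh0 : (0 : ℝ) < ((2 ^ i : ℕ) : ℝ) := by positivity
  have hratio : ((2 ^ i : ℕ) : ℝ) / n = 4 * 2 ^ j := by
    rw [hpi]
    push_cast
    rw [pow_add]
    field_simp
    norm_num
  have hP0 : (0 : ℝ) < 2 ^ j := by positivity
  have hP1 : (1 : ℝ) ≤ 2 ^ j := one_le_pow₀ (by norm_num)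
  -- widths
  obtain ⟨wh, hwh⟩ : ∃ wh : ℝ, wh = wd' μ (2 ^ i) := ⟨_, rfl⟩
  obtain ⟨wn, hwn⟩ : ∃ wn : ℝ, wn = wd' μ n := ⟨_, rfl⟩
  have hwh1 : 1 ≤ wh := by rw [hwh]; exact le_max_left _ _
  have hwn1 : 1 ≤ wn := by rw [hwn]; exact le_max_left _ _
  obtain ⟨-, hw2, hw3⟩ := hwp n (2 ^ i) hn0 hnh
  rw [hratio, ← hwh, ← hwn] at hw2 hw3
  have hPa : (0 : ℝ) < (2 ^ j) ^ a := Real.rpow_pos_of_pos hP0 a
  have hPaL : (L : ℝ) ^ (2 * e) ≤ (2 ^ j) ^ a := by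
    rw [← hXa, Real.rpow_mul hL0.le]
    exact Real.rpow_le_rpow (by positivity) hj1 ha0.le
  have hwn_le : (2 ^ j : ℝ) ^ a * wn ≤ K * wh := by
    have h1 : (2 ^ j : ℝ) ^ a ≤ (4 * 2 ^ j) ^ a := Real.rpow_le_rpow hP0.le (by linarith) ha0.le
    have h2 : K⁻¹ * (2 ^ j : ℝ) ^ a * wn ≤ K⁻¹ * (4 * 2 ^ j) ^ a * wn :=
      mul_le_mul_of_nonneg_right (mul_le_mul_of_nonneg_left h1 (by positivity)) (by linarith)
    have h3 := mul_le_mul_of_nonneg_left (h2.trans hw2) hK0.le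
    calc (2 ^ j : ℝ) ^ a * wn = K * (K⁻¹ * (2 ^ j : ℝ) ^ a * wn) := by field_simp
      _ ≤ _ := h3
  have hwh_le : wh * (2 ^ j : ℝ) ^ a ≤ 4 * K * 2 ^ j * wn := by
    have h1 : (4 * 2 ^ j : ℝ) ^ (1 - a) ≤ 4 * (2 ^ j) ^ (1 - a) := by
      rw [Real.mul_rpow (by norm_num) hP0.le]
      refine mul_le_mul_of_nonneg_right ?_ (by positivity)
      calc (4 : ℝ) ^ (1 - a) ≤ 4 ^ (1 : ℝ) := Real.rpow_le_rpow_of_exponent_le (by norm_num) (by linarith)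
        _ = 4 := Real.rpow_one 4
    have h2 : wh ≤ K * (4 * (2 ^ j) ^ (1 - a)) * wn :=
      hw3.trans (mul_le_mul_of_nonneg_right (mul_le_mul_of_nonneg_left h1 hK0.le) (by linarith))
    have h3 := mul_le_mul_of_nonneg_right h2 hPa.le
    have e3 : (2 ^ j : ℝ) ^ (1 - a) * (2 ^ j) ^ a = 2 ^ j := by
      rw [← Real.rpow_add hP0]
      have : (1 : ℝ) - a + a = 1 := by ring
      rw [this, Real.rpow_one]
    calc wh * (2 ^ j : ℝ) ^ a ≤ K * (4 * (2 ^ j) ^ (1 - a)) * wn * (2 ^ j) ^ a := h3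
      _ = 4 * K * ((2 ^ j : ℝ) ^ (1 - a) * (2 ^ j) ^ a) * wn := by ring
      _ = _ := by rw [e3]
  -- the deviation of one piece
  obtain ⟨P, hPd⟩ : ∃ P : ℝ, P = (L : ℝ) ^ e := ⟨_, rfl⟩
  have hP1' : 1 ≤ P := by rw [hPd]; exact Real.one_le_rpow hLR he.le
  have hPsq : (L : ℝ) ^ (2 * e) = P * P := by
    rw [hPd, ← Real.rpow_add hL0]
    congr 1
    ring
  rw [hPsq] at hPaL
  rw [← hPd, ← hwh] at hDv'
  obtain ⟨Δ, hΔ⟩ : ∃ Δ : ℝ, Δ = Dv / 2 ^ j := ⟨_, rfl⟩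
  have hΔ0 : 0 ≤ Δ := by rw [hΔ]; positivity
  have hΔj : 2 ^ j * Δ = Dv := by rw [hΔ]; field_simp
  have hΔw : Δ ≤ wn / (2 * K) := by
    have h1 : Dv * (P * P) ≤ C₅ * (P * (4 * K * 2 ^ j * wn)) := by
      calc Dv * (P * P) ≤ Dv * (2 ^ j) ^ a := mul_le_mul_of_nonneg_left hPaL hDv
        _ ≤ C₅ * (P * wh) * (2 ^ j) ^ a := mul_le_mul_of_nonneg_right hDv' hPa.le
        _ = C₅ * (P * (wh * (2 ^ j) ^ a)) := by ring
        _ ≤ C₅ * (P * (4 * K * 2 ^ j * wn)) :=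
            mul_le_mul_of_nonneg_left (mul_le_mul_of_nonneg_left hwh_le (by linarith)) (by linarith)
    have h2 : Δ * P ≤ 4 * K * C₅ * wn := by
      have h3 : (Δ * P) * (P * 2 ^ j) ≤ (4 * K * C₅ * wn) * (P * 2 ^ j) := by
        calc (Δ * P) * (P * 2 ^ j) = (2 ^ j * Δ) * (P * P) := by ring
          _ = Dv * (P * P) := by rw [hΔj]
          _ ≤ _ := h1
          _ = (4 * K * C₅ * wn) * (P * 2 ^ j) := by ring
      exact le_of_mul_le_mul_right h3 (by positivity)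
    have h4 : 8 * K ^ 2 * C₅ ≤ P := by rw [hPd]; exact hL₃ L hLd
    rw [le_div_iff₀ (by positivity)]
    have h5 : (Δ * (2 * K)) * (4 * K * C₅) ≤ wn * (4 * K * C₅) := by
      calc (Δ * (2 * K)) * (4 * K * C₅) = Δ * (8 * K ^ 2 * C₅) := by ring
        _ ≤ Δ * P := mul_le_mul_of_nonneg_left h4 hΔ0
        _ ≤ 4 * K * C₅ * wn := h2
        _ = wn * (4 * K * C₅) := by ring
    exact le_of_mul_le_mul_right h5 (by positivity)
  obtain ⟨B0, hB0⟩ : ∃ B0 : ℝ, B0 = 2 * (⌈(L : ℝ) ^ (3 * e / 2) * wd' μ n⌉₊ : ℝ) := ⟨_, rfl⟩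
  have hB00 : 0 ≤ B0 := by rw [hB0]; positivity
  obtain ⟨A, hA⟩ : ∃ A : ℝ, A = K₂ * ((L : ℝ) ^ e * EE' μ n) := ⟨_, rfl⟩
  have hb : ∀ i' m' : ℕ, n ≤ m' → m' ≤ 2 * n → i' + m' ≤ L → ∀ x' : ℤ, |x'| + m' ≤ 2 * L → ∀ y' : ℤ,
      |2 * (y' : ℝ) - m'| ≤ Δ + 2 → Real.exp (-A) ≤ WR μ 0 (Sb B0 ((i' : ℤ), x')) η ((i' : ℤ), x') m' y' := by
    intro i' m' h1 h2 h3 x' hx' y' hy'
    have hm'1 : n₁ ≤ m' := hnn1.trans h1
    have hm16 : 16 ≤ m' := (hN16.trans hNn).trans h1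
    have hmR : (16 : ℝ) ≤ m' := by exact_mod_cast hm16
    obtain ⟨hwm, -, hwm4⟩ := hq m' hm'1
    have hw2' : 2 ≤ wd' μ m' := by
      rw [hwm]
      refine le_trans ?_ hwm4
      calc (2 : ℝ) = (16 : ℝ) ^ (1 / 4 : ℝ) := by
            rw [show (16 : ℝ) = 2 ^ (4 : ℝ) by norm_num, ← Real.rpow_mul (by norm_num)]
            norm_num
        _ ≤ _ := Real.rpow_le_rpow (by norm_num) hmR (by norm_num)
    have hwK : wn ≤ K * wd' μ m' := by rw [hwn]; exact (hwp n m' hn0 h1).1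
    have hΔm : Δ ≤ wd' μ m' / 2 := by
      refine hΔw.trans ?_
      rw [div_le_div_iff₀ (by positivity) (by norm_num)]
      calc wn * 2 ≤ (K * wd' μ m') * 2 := by linarith
        _ = wd' μ m' * (2 * K) := by ring
    have hwhalf : wd' μ m' ≤ m' / 2 := by
      rw [hwm]
      show vA μ 1 m' * m' ≤ m' / 2
      have h4 := hn₃ m' ((hNn3.trans hNn).trans h1)
      have : vA μ 1 m' * m' ≤ 1 / 2 * m' := mul_le_mul_of_nonneg_right h4 (by linarith)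
      linarith
    have hy3 : |2 * (y' : ℝ) - m'| ≤ 3 / 2 * wd' μ m' := by linarith
    have hy4 := abs_le.1 hy3
    have hy5 : 0 ≤ y' := by
      have : (0 : ℝ) ≤ y' := by linarith [hy4.1]
      exact_mod_cast this
    have hy6 : y' ≤ m' := by
      have : (y' : ℝ) ≤ m' := by linarith [hy4.2]
      exact_mod_cast this
    have hLδ : 1 ≤ (L : ℝ) ^ δ := Real.one_le_rpow hLR hδ.le
    have h6 := hbase L hLb η hG n hnn1 hnL i' m' h1 h2 h3 x' hx' y' hy5 hy6 (by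
      refine hy3.trans ?_
      have : wd' μ m' ≤ (L : ℝ) ^ δ * wd' μ m' := le_mul_of_one_le_left (by linarith) hLδ
      linarith)
    rw [← hA, ← hB0] at h6
    exact h6
  have hmm1 : 2 ^ j * n ≤ m := by
    have e3 : 2 ^ i = 4 * (2 ^ j * n) := by rw [hpi, pow_add]; ring
    omega
  have hmm2 : m ≤ 2 ^ (j + 1) * n := by
    have e3 : 2 ^ i = 4 * (2 ^ j * n) := by rw [hpi, pow_add]; ring
    have e4 : 2 ^ (j + 1) * n = 2 * (2 ^ j * n) := by ring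
    omega
  have hres := halve (μ := μ) (η := η) (L := L) (n := n) (A := A) (Δ := Δ) (B0 := B0) hΔ0 hB00 hb j s m hmm1 hmm2 hsm x hx y
    (by rw [hΔj]; exact hy)
  -- the cost
  have hcost : 2 ^ j * A ≤ (L : ℝ) ^ ε₂ * EE' μ (2 ^ i) := by
    have h1 := (hEp n (2 ^ i) hn0 hnh).1
    have hE0 : 0 ≤ EE' μ (2 ^ i) := zero_le_one.trans (le_max_left _ _)
    have hEn0 : 0 ≤ EE' μ n := zero_le_one.trans (le_max_left _ _)
    have h2 := hL₄ L hLe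
    rw [hA]
    calc 2 ^ j * (K₂ * ((L : ℝ) ^ e * EE' μ n)) ≤ (2 * (L : ℝ) ^ X) * (K₂ * ((L : ℝ) ^ e * (KE * EE' μ (2 ^ i)))) := by
          refine mul_le_mul hj2 ?_ (by positivity) (by positivity)
          exact mul_le_mul_of_nonneg_left (mul_le_mul_of_nonneg_left h1 (by positivity)) (by linarith)
      _ = (2 * K₂ * KE) * ((L : ℝ) ^ X * (L : ℝ) ^ e) * EE' μ (2 ^ i) := by ring
      _ = (2 * K₂ * KE) * (L : ℝ) ^ (X + e) * EE' μ (2 ^ i) := by rw [Real.rpow_add hL0]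
      _ ≤ (L : ℝ) ^ (ε₂ / 2) * (L : ℝ) ^ (ε₂ / 2) * EE' μ (2 ^ i) := by
          refine mul_le_mul_of_nonneg_right ?_ hE0
          exact mul_le_mul h2 (Real.rpow_le_rpow_of_exponent_le hLR hXe.le) (by positivity) (by positivity)
      _ = (L : ℝ) ^ ε₂ * EE' μ (2 ^ i) := by
          rw [← Real.rpow_add hL0]
          congr 2
          ring
  refine (Real.exp_le_exp.2 (neg_le_neg hcost)).trans (hres.trans ?_)
  refine WR_mono_on9 η _ m y ?_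
  intro p hp _ _
  have hp' : |2 * ((p.2 : ℝ) - (x : ℝ)) - ((p.1 : ℝ) - ((s : ℤ) : ℝ))| ≤ B0 + (2 ^ j - 1) * Δ + 2 * j := hp
  show |2 * ((p.2 : ℝ) - (x : ℝ)) - ((p.1 : ℝ) - ((s : ℤ) : ℝ))| ≤ (2 * K + 6) * wd' μ (2 ^ i) + Dv
  refine hp'.trans ?_
  rw [← hwh]
  -- the width of the tube
  have hKn : B0 ≤ 2 * (K * wh + 1) := by
    have h1 : (⌈(L : ℝ) ^ (3 * e / 2) * wd' μ n⌉₊ : ℝ) < (L : ℝ) ^ (3 * e / 2) * wd' μ n + 1 :=
      Nat.ceil_lt_add_one (by rw [← hwn]; positivity)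
    have h2 : (L : ℝ) ^ (3 * e / 2) * wn ≤ K * wh := by
      refine le_trans (mul_le_mul_of_nonneg_right ?_ (by linarith)) hwn_le
      refine le_trans (Real.rpow_le_rpow_of_exponent_le hLR (by linarith)) (hPsq ▸ hPaL)
    rw [hB0]
    rw [← hwn] at h1 ⊢
    linarith
  have hj3 : (j : ℝ) ≤ 2 * wh := by
    have h1 : (j : ℝ) ≤ 2 ^ j := by
      have : j ≤ 2 ^ j := Nat.lt_two_pow_self.le
      exact_mod_cast this
    have h2 : (L : ℝ) ^ X ≤ wh := by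
      have hhn : n₁ ≤ 2 ^ i := hnn1.trans hnh
      obtain ⟨g1, -, g2⟩ := hq (2 ^ i) hhn
      rw [hwh, g1]
      refine le_trans ?_ g2
      calc (L : ℝ) ^ X ≤ (L : ℝ) ^ (e1 * (1 / 4)) := Real.rpow_le_rpow_of_exponent_le hLR (by linarith)
        _ = ((L : ℝ) ^ e1) ^ (1 / 4 : ℝ) := by rw [Real.rpow_mul hL0.le]
        _ ≤ _ := Real.rpow_le_rpow (by positivity) hi (by norm_num)
    linarith
  have e5 : (2 ^ j - 1) * Δ = Dv - Δ := by rw [sub_mul, hΔj, one_mul]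
  rw [e5]
  linarith

end

end Pool.Agent.W_7d29a1_Z9
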